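import Mathlib
import Pool.Agent.V1116.HyperC

/-!
# There is no infinite tower of abelian extensions of connected quandles
-/

open scoped commutatorElement

namespace Pool.Agent.Results.MP_caf75b_al.NoInfiniteTower

open Pool.Agent.V1116.HyperC

universe u v

/-- Quandles: `op a b` is `a * b`. -/
structure IsQuandle {X : Type u} (op : X → X → X) : Prop where
  idem : ∀ a, op a a = a
  exUnique : ∀ b c, ∃! a, op a b = c
  dist : ∀ a b c, op (op a b) c = op (op a c) (op b c)

theorem IsQuandle.bij {X : Type u} {op : X → X → X} (h : IsQuandle op) (a : X) :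
    Function.Bijective (fun x => op x a) := by
  constructor
  · intro x y hxy
    exact (h.exUnique a (op y a)).unique hxy rfl
  · intro c
    obtain ⟨x, hx, -⟩ := h.exUnique a c
    exact ⟨x, hx⟩

/-- The right translation `R_a : x ↦ x * a`, as a permutation. -/
noncomputable def IsQuandle.R {X : Type u} {op : X → X → X} (h : IsQuandle op) (a : X) :
    Equiv.Perm X :=
  Equiv.ofBijective (fun x => op x a) (h.bij a)

/-- The inner automorphism group. -/
def IsQuandle.Inn {X : Type u} {op : X → X → X} (h : IsQuandle op) : Subgroup (Equiv.Perm X) :=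
  Subgroup.closure (Set.range h.R)

/-- Connected quandles: (nonempty and) the inner automorphism group is transitive. -/
def IsQuandle.Connected {X : Type u} {op : X → X → X} (h : IsQuandle op) : Prop :=
  Nonempty X ∧ ∀ x y : X, ∃ g ∈ h.Inn, g x = y

/-- Quandle `2`-cocycles with values in an abelian group. -/
def IsCocycle {X : Type u} (op : X → X → X) {A : Type v} [AddCommGroup A] (φ : X → X → A) :
    Prop :=
  (∀ x y z, φ x y - φ x z + φ (op x y) z - φ (op x z) (op y z) = 0) ∧ ∀ x, φ x x = 0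

/-- The operation of the abelian extension `E(X, A, φ)` on `X × A`. -/
def extOp {X : Type u} (op : X → X → X) {A : Type v} [AddCommGroup A] (φ : X → X → A)
    (s t : X × A) : X × A :=
  (op s.1 t.1, s.2 + φ s.1 t.1)

/-- `(X', op')` is isomorphic to the abelian extension `E(X, A, φ)`. -/
def IsoExt {X X' : Type u} (op : X → X → X) (op' : X' → X' → X') {A : Type v} [AddCommGroup A]
    (φ : X → X → A) : Prop :=
  ∃ e : X' ≃ X × A, ∀ s t, e (op' s t) = extOp op φ (e s) (e t)

/-- `Q 0 ← Q 1 ← ⋯ ← Q k` is a chain of finite connected quandles, each one (isomorphic to) an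
abelian extension of the previous one by a nontrivial abelian group. -/
def IsChain (k : ℕ) (Q : ℕ → Type u) (op : ∀ n, Q n → Q n → Q n) (A : ℕ → Type v)
    [∀ n, AddCommGroup (A n)] (φ : ∀ n, Q n → Q n → A n) : Prop :=
  (∀ n ≤ k, Finite (Q n) ∧ ∃ h : IsQuandle (op n), h.Connected) ∧
    ∀ n < k, Nontrivial (A n) ∧ IsCocycle (op n) (φ n) ∧ IsoExt (op n) (op (n + 1)) (φ n)

section Quandle

variable {X : Type u} {op : X → X → X} (h : IsQuandle op)

theorem R_apply (a x : X) : h.R a x = op x a := rfl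

theorem R_mem (a : X) : h.R a ∈ h.Inn := Subgroup.subset_closure ⟨a, rfl⟩

/-- Inner automorphisms are automorphisms. -/
theorem inn_aut {g : Equiv.Perm X} (hg : g ∈ h.Inn) : ∀ a b, g (op a b) = op (g a) (g b) := by
  induction hg using Subgroup.closure_induction with
  | mem g hg =>
    obtain ⟨c, rfl⟩ := hg
    intro a b
    exact h.dist a b c
  | one => intro a b; rfl
  | mul g k _ _ ihg ihk =>
    intro a b
    rw [Equiv.Perm.mul_apply, ihk, ihg]; rfl
  | inv g _ ih =>
    intro a b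
    apply g.injective
    rw [ih]
    have e : ∀ x, g (g⁻¹ x) = x := fun x => g.apply_symm_apply x
    rw [e, e, e]

theorem conj_R {g : Equiv.Perm X} (hg : g ∈ h.Inn) (a : X) : g * h.R a * g⁻¹ = h.R (g a) := by
  rw [mul_inv_eq_iff_eq_mul]
  apply Equiv.ext
  intro x
  exact inn_aut h hg x a

theorem exists_generator (hc : h.Connected) (q : X) : ∀ g : h.Inn, ∃ i : ℤ,
    g * ((⟨h.R q, R_mem h q⟩ : h.Inn) ^ i)⁻¹ ∈ commutator h.Inn := by
  set x : h.Inn := ⟨h.R q, R_mem h q⟩ with hx
  rintro ⟨g, hg⟩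
  induction hg using Subgroup.closure_induction with
  | mem g hg =>
    obtain ⟨a, rfl⟩ := hg
    obtain ⟨k, hk, hka⟩ := hc.2 q a
    refine ⟨1, ?_⟩
    have e : (⟨h.R a, R_mem h a⟩ : h.Inn) * (x ^ (1 : ℤ))⁻¹ = ⁅(⟨k, hk⟩ : h.Inn), x⁆ := by
      apply Subtype.ext
      show h.R a * ((h.R q) ^ (1 : ℤ))⁻¹ = k * h.R q * k⁻¹ * (h.R q)⁻¹
      rw [conj_R h hk, hka, zpow_one]
    show (⟨h.R a, R_mem h a⟩ : h.Inn) * (x ^ (1 : ℤ))⁻¹ ∈ _
    rw [e]
    exact Subgroup.commutator_mem_commutator (Subgroup.mem_top _) (Subgroup.mem_top _)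
  | one =>
    refine ⟨0, ?_⟩
    have : (⟨1, one_mem _⟩ : h.Inn) * (x ^ (0 : ℤ))⁻¹ = 1 := by
      rw [zpow_zero, inv_one, mul_one]; rfl
    rw [this]
    exact one_mem _
  | mul g k hg hk ihg ihk =>
    obtain ⟨i, hi⟩ := ihg
    obtain ⟨j, hj⟩ := ihk
    refine ⟨i + j, ?_⟩
    have e : (⟨g * k, mul_mem hg hk⟩ : h.Inn) * (x ^ (i + j))⁻¹ =
        ((⟨g, hg⟩ : h.Inn) * (x ^ i)⁻¹) * (x ^ i * ((⟨k, hk⟩ : h.Inn) * (x ^ j)⁻¹) * (x ^ i)⁻¹) := by
      have e1 : (⟨g * k, mul_mem hg hk⟩ : h.Inn) = ⟨g, hg⟩ * ⟨k, hk⟩ := rfl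
      rw [e1, zpow_add]
      group
    rw [e]
    exact mul_mem hi (Subgroup.Normal.conj_mem inferInstance _ hj _)
  | inv g hg ih =>
    obtain ⟨i, hi⟩ := ih
    refine ⟨-i, ?_⟩
    have e : (⟨g⁻¹, inv_mem hg⟩ : h.Inn) * (x ^ (-i))⁻¹ =
        (x ^ i)⁻¹ * ((⟨g, hg⟩ : h.Inn) * (x ^ i)⁻¹)⁻¹ * (x ^ i)⁻¹⁻¹ := by
      have e1 : (⟨g⁻¹, inv_mem hg⟩ : h.Inn) = (⟨g, hg⟩ : h.Inn)⁻¹ := rfl
      rw [e1]
      group
    rw [e]
    exact Subgroup.Normal.conj_mem inferInstance _ (inv_mem hi) _

theorem card_le [Finite X] (hc : h.Connected) : Nat.card X ≤ Nat.card (commutator h.Inn) := by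
  obtain ⟨q⟩ := hc.1
  apply Nat.card_le_card_of_surjective (fun d : commutator h.Inn => ((d : h.Inn) : Equiv.Perm X) q)
  intro a
  obtain ⟨g, hg, hga⟩ := hc.2 q a
  obtain ⟨i, hi⟩ := exists_generator h hc q ⟨g, hg⟩
  refine ⟨⟨_, hi⟩, ?_⟩
  show (g * (h.R q ^ i)⁻¹) q = a
  have hfix : h.R q q = q := h.idem q
  have h1 : (h.R q ^ i)⁻¹ q = q := by
    rw [← zpow_neg]
    exact Function.IsFixedPt.perm_zpow hfix _
  rw [Equiv.Perm.mul_apply, h1, hga]

end Quandle

section Covering

variable {E : Type u} {opE : E → E → E} (hE : IsQuandle opE) {X : Type u} {op : X → X → X}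
  (hX : IsQuandle op) (p : E → X) (hp : ∀ a b, p (opE a b) = op (p a) (p b))
  (hsurj : Function.Surjective p) (hcov : ∀ a b, p a = p b → hE.R a = hE.R b)

include hp in
theorem exists_descend {g : Equiv.Perm E} (hg : g ∈ hE.Inn) :
    ∃ g' ∈ hX.Inn, ∀ e, p (g e) = g' (p e) := by
  induction hg using Subgroup.closure_induction with
  | mem g hg =>
    obtain ⟨a, rfl⟩ := hg
    exact ⟨hX.R (p a), R_mem hX _, fun e => hp e a⟩
  | one => exact ⟨1, one_mem _, fun e => rfl⟩
  | mul g k _ _ ihg ihk =>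
    obtain ⟨g', hg', eg⟩ := ihg
    obtain ⟨k', hk', ek⟩ := ihk
    refine ⟨g' * k', mul_mem hg' hk', fun e => ?_⟩
    rw [Equiv.Perm.mul_apply, eg, ek]; rfl
  | inv g _ ih =>
    obtain ⟨g', hg', eg⟩ := ih
    refine ⟨g'⁻¹, inv_mem hg', fun e => ?_⟩
    apply g'.injective
    rw [← eg]
    have e1 : g (g⁻¹ e) = e := g.apply_symm_apply e
    have e2 : g' (g'⁻¹ (p e)) = p e := g'.apply_symm_apply _
    rw [e1, e2]

/-- The homomorphism `Inn E → Inn X`. -/
noncomputable def desc : hE.Inn →* hX.Inn where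
  toFun g := ⟨(exists_descend hE hX p hp g.2).choose,
    (exists_descend hE hX p hp g.2).choose_spec.1⟩
  map_one' := by
    apply Subtype.ext
    apply Equiv.ext
    intro x
    obtain ⟨e, rfl⟩ := hsurj x
    exact ((exists_descend hE hX p hp (1 : hE.Inn).2).choose_spec.2 e).symm
  map_mul' a b := by
    apply Subtype.ext
    apply Equiv.ext
    intro x
    obtain ⟨e, rfl⟩ := hsurj x
    have h1 := (exists_descend hE hX p hp (a * b).2).choose_spec.2 e
    have h2 := (exists_descend hE hX p hp a.2).choose_spec.2 ((b : Equiv.Perm E) e)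
    have h3 := (exists_descend hE hX p hp b.2).choose_spec.2 e
    refine h1.symm.trans ?_
    show p ((a : Equiv.Perm E) ((b : Equiv.Perm E) e)) = _
    rw [h2, h3]; rfl

theorem desc_spec (g : hE.Inn) (e : E) :
    p ((g : Equiv.Perm E) e) = (desc hE hX p hp hsurj g : Equiv.Perm X) (p e) :=
  (exists_descend hE hX p hp g.2).choose_spec.2 e

include hcov in
theorem desc_ker_le : (desc hE hX p hp hsurj).ker ≤ Subgroup.center hE.Inn := by
  intro z hz
  rw [MonoidHom.mem_ker] at hz
  have hpz : ∀ e, p ((z : Equiv.Perm E) e) = p e := by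
    intro e
    rw [desc_spec hE hX p hp hsurj z e, hz]; rfl
  rw [Subgroup.mem_center_iff]
  rintro ⟨g, hg⟩
  apply Subtype.ext
  show g * (z : Equiv.Perm E) = (z : Equiv.Perm E) * g
  induction hg using Subgroup.closure_induction with
  | mem g hg =>
    obtain ⟨a, rfl⟩ := hg
    apply Equiv.ext
    intro x
    show opE ((z : Equiv.Perm E) x) a = (z : Equiv.Perm E) (opE x a)
    rw [inn_aut hE z.2]
    have h1 := hcov _ _ (hpz a)
    exact (DFunLike.congr_fun h1 ((z : Equiv.Perm E) x)).symm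
  | one => rw [one_mul, mul_one]
  | mul g k _ _ ihg ihk => rw [mul_assoc, ihk, ← mul_assoc, ihg, mul_assoc]
  | inv g _ ih =>
    rw [inv_mul_eq_iff_eq_mul, ← mul_assoc, ih, mul_inv_cancel_right]

end Covering

theorem comap_upper_le {G H : Type*} [Group G] [Group H] (f : G →* H)
    (hf : f.ker ≤ Subgroup.center G) (n : ℕ) :
    (Subgroup.upperCentralSeries H n).comap f ≤ Subgroup.upperCentralSeries G (n + 1) := by
  induction n with
  | zero =>
    intro z hz
    rw [Subgroup.mem_upperCentralSeries_succ_iff]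
    intro y
    rw [Subgroup.mem_comap, Subgroup.upperCentralSeries_zero, Subgroup.mem_bot] at hz
    rw [Subgroup.upperCentralSeries_zero, Subgroup.mem_bot,
      commutatorElement_eq_one_iff_commute]
    exact ((Subgroup.mem_center_iff.mp (hf hz)) y).symm
  | succ n ih =>
    intro z hz
    rw [Subgroup.mem_upperCentralSeries_succ_iff]
    intro y
    apply ih
    rw [Subgroup.mem_comap, map_commutatorElement]
    exact Subgroup.mem_upperCentralSeries_succ_iff.mp hz (f y)

section Chain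

variable {Q : ℕ → Type u} {op : ∀ n, Q n → Q n → Q n} {A : ℕ → Type v}
    [∀ n, AddCommGroup (A n)] {φ : ∀ n, Q n → Q n → A n}

theorem exists_hom {k : ℕ} (hch : IsChain k Q op A φ) (h0 : IsQuandle (op 0)) :
    ∀ n ≤ k, ∀ hn : IsQuandle (op n), ∃ f : hn.Inn →* h0.Inn,
      f.ker ≤ Subgroup.upperCentralSeries hn.Inn n := by
  intro n
  induction n with
  | zero =>
    intro _ hn
    refine ⟨MonoidHom.id _, ?_⟩
    intro z hz
    rw [MonoidHom.mem_ker] at hz
    rw [Subgroup.upperCentralSeries_zero, Subgroup.mem_bot]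
    exact hz
  | succ n ih =>
    intro hnk hn'
    obtain ⟨-, hn, -⟩ := hch.1 n (by omega)
    obtain ⟨f, hf⟩ := ih (by omega) hn
    obtain ⟨-, -, e, he⟩ := hch.2 n (by omega)
    let p : Q (n + 1) → Q n := fun s => (e s).1
    have hp : ∀ a b, p (op (n + 1) a b) = op n (p a) (p b) := by
      intro a b
      show (e (op (n + 1) a b)).1 = _
      rw [he]; rfl
    have hnt := (hch.2 n (by omega)).1
    have hsurj : Function.Surjective p := by
      intro x
      exact ⟨e.symm (x, 0), by show (e (e.symm (x, 0))).1 = x; rw [e.apply_symm_apply]⟩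
    have hcov : ∀ a b, p a = p b → hn'.R a = hn'.R b := by
      intro a b hab
      apply Equiv.ext
      intro x
      show op (n + 1) x a = op (n + 1) x b
      apply e.injective
      rw [he, he]
      have : (e a).1 = (e b).1 := hab
      unfold extOp
      rw [this]
    refine ⟨f.comp (desc hn' hn p hp hsurj), ?_⟩
    intro z hz
    apply comap_upper_le (desc hn' hn p hp hsurj) (desc_ker_le hn' hn p hp hsurj hcov) n
    exact hf hz

theorem bd_mono : Monotone bd := by
  intro a b hab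
  unfold bd
  apply Nat.mul_le_mul _ hab
  apply Finset.sup_mono
  intro i hi
  rw [Finset.mem_range] at hi ⊢
  have := Nat.mul_le_mul hab hab
  omega

/-- The orders of the quandles in a chain are bounded in terms of the order of `Q 0`. -/
theorem card_le_bd {k : ℕ} (hch : IsChain k Q op A φ) {n : ℕ} (hn : n ≤ k) :
    Nat.card (Q n) ≤ bd (Nat.factorial (Nat.card (Q 0))) := by
  obtain ⟨hfin0, h0, -⟩ := hch.1 0 (by omega)
  obtain ⟨hfin, h, hc⟩ := hch.1 n hn
  obtain ⟨f, hf⟩ := exists_hom hch h0 n hn h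
  obtain ⟨q⟩ := hc.1
  have h1 := card_le h hc
  have h2 := card_commutator_le f n hf ⟨h.R q, R_mem h q⟩ (exists_generator h hc q)
  have h3 : Nat.card h0.Inn ≤ Nat.factorial (Nat.card (Q 0)) := by
    rw [← Nat.card_perm]
    exact Nat.card_le_card_of_injective _ Subtype.val_injective
  exact (h1.trans h2).trans (bd_mono h3)

theorem pow_le_card {k : ℕ} (hch : IsChain k Q op A φ) : ∀ n ≤ k, 2 ^ n ≤ Nat.card (Q n) := by
  intro n
  induction n with
  | zero =>
    intro _
    obtain ⟨hfin, h, hc⟩ := hch.1 0 (by omega)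
    have := hc.1
    rw [pow_zero]
    exact Nat.card_pos
  | succ n ih =>
    intro hn
    have h1 := ih (by omega)
    obtain ⟨hfin, h, hc⟩ := hch.1 n (by omega)
    obtain ⟨hfin', -, -⟩ := hch.1 (n + 1) hn
    obtain ⟨hnt, -, e, -⟩ := hch.2 n (by omega)
    have hne := hc.1
    have hfinp : Finite (Q n × A n) := Finite.of_equiv _ e
    have hfinA : Finite (A n) := Finite.of_surjective (Prod.snd : Q n × A n → A n)
      Prod.snd_surjective
    rw [Nat.card_congr e, Nat.card_prod, pow_succ]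
    exact Nat.mul_le_mul h1 Finite.one_lt_card

end Chain

/-- **Theorem.** There is no infinite tower `⋯ → Q₂ → Q₁ → Q₀` of finite connected quandles in
which each quandle is isomorphic to an abelian extension of the next one by a nontrivial abelian
group; moreover, the length of any finite chain of this kind is bounded by a function of the order
of its bottom quandle `Q₀` alone. -/
theorem result :
    (¬ ∃ (Q : ℕ → Type u) (op : ∀ n, Q n → Q n → Q n) (A : ℕ → Type v)
      (_ : ∀ n, AddCommGroup (A n)) (φ : ∀ n, Q n → Q n → A n),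
        (∀ n, Finite (Q n)) ∧ (∀ n, ∃ h : IsQuandle (op n), h.Connected) ∧
        (∀ n, Nontrivial (A n)) ∧ (∀ n, IsCocycle (op n) (φ n)) ∧
        (∀ n, IsoExt (op n) (op (n + 1)) (φ n))) ∧
    ∃ F : ℕ → ℕ, ∀ (k : ℕ) (Q : ℕ → Type u) (op : ∀ n, Q n → Q n → Q n) (A : ℕ → Type v)
      (_ : ∀ n, AddCommGroup (A n)) (φ : ∀ n, Q n → Q n → A n), IsChain k Q op A φ →
        k ≤ F (Nat.card (Q 0)) := by
  have key : ∀ (k : ℕ) (Q : ℕ → Type u) (op : ∀ n, Q n → Q n → Q n) (A : ℕ → Type v)
      (_ : ∀ n, AddCommGroup (A n)) (φ : ∀ n, Q n → Q n → A n), IsChain k Q op A φ →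
        k ≤ bd (Nat.factorial (Nat.card (Q 0))) := by
    intro k Q op A _ φ hch
    exact (Nat.lt_two_pow_self.le.trans (pow_le_card hch k le_rfl)).trans (card_le_bd hch le_rfl)
  refine ⟨?_, fun m => bd (Nat.factorial m), key⟩
  rintro ⟨Q, op, A, _, φ, h1, h2, h3, h4, h5⟩
  have h := key (bd (Nat.factorial (Nat.card (Q 0))) + 1) Q op A _ φ
    ⟨fun n _ => ⟨h1 n, h2 n⟩, fun n _ => ⟨h3 n, h4 n, h5 n⟩⟩
  omega

end Pool.Agent.Results.MP_caf75b_al.NoInfiniteTower
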